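import Mathlib

/-!
# The energy inequality for the simultaneous double product property

`N x i j` is the number of representations of `x` as a sum of an element of `A i` and an element
of `B j`.  In a family with the (one-sided) simultaneous double product property the sets
`(A i + B j) ∩ (A j + B i)`, `j` arbitrary, are pairwise disjoint, which gives
`∑ i, ∑ j, w i j * |D i ∩ D j| ≤ n |H|` for `D i = A i - B i` and every kernel `w` with
`N x i j * N x j i * w i j ≤ 1`.
-/

set_option autoImplicit false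

open Finset
open scoped Pointwise

namespace Pool.Agent.SD5

variable {H : Type*} [AddCommGroup H] [DecidableEq H]

/-- the number of representations of `x` in `A + B` -/
def nr (A B : Finset H) (x : H) : ℕ := ((A ×ˢ B).filter fun p => p.1 + p.2 = x).card

theorem inter_le (A B A' B' : Finset H) :
    ((A - B) ∩ (A' - B')).card ≤
      ∑ x ∈ (A + B') ∩ (A' + B), nr A B' x * nr A' B x := by
  classical
  -- choose the representatives
  have hrep : ∀ d ∈ (A - B) ∩ (A' - B'), ∃ q : (H × H) × (H × H),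
      q.1.1 ∈ A ∧ q.1.2 ∈ B ∧ q.2.1 ∈ A' ∧ q.2.2 ∈ B' ∧ q.1.1 - q.1.2 = d ∧
        q.2.1 - q.2.2 = d := by
    intro d hd
    rw [mem_inter, mem_sub, mem_sub] at hd
    obtain ⟨⟨a, ha, b, hb, h1⟩, a', ha', b', hb', h2⟩ := hd
    exact ⟨((a, b), (a', b')), ha, hb, ha', hb', h1, h2⟩
  choose! q hq using hrep
  let S : Finset (Σ _ : H, (H × H) × (H × H)) :=
    ((A + B') ∩ (A' + B)).sigma fun x =>
      ((A ×ˢ B').filter fun p => p.1 + p.2 = x) ×ˢ ((A' ×ˢ B).filter fun p => p.1 + p.2 = x)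
  have hS : S.card = ∑ x ∈ (A + B') ∩ (A' + B), nr A B' x * nr A' B x := by
    rw [card_sigma]
    refine sum_congr rfl fun x _ => ?_
    rw [card_product]
    rfl
  rw [← hS]
  refine card_le_card_of_injOn
    (fun d => ⟨(q d).1.1 + (q d).2.2, (((q d).1.1, (q d).2.2), ((q d).2.1, (q d).1.2))⟩) ?_ ?_
  · intro d hd
    obtain ⟨h1, h2, h3, h4, h5, h6⟩ := hq d hd
    have h7 : (q d).2.1 + (q d).1.2 = (q d).1.1 + (q d).2.2 := by
      have := h5.trans h6.symm
      rw [sub_eq_sub_iff_add_eq_add] at this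
      exact this.symm
    simp only [S, coe_sigma, Set.mem_sigma_iff, mem_coe, mem_inter, mem_product, mem_filter]
    refine ⟨⟨add_mem_add h1 h4, ?_⟩, ⟨⟨h1, h4⟩, trivial⟩, ⟨h3, h2⟩, h7⟩
    rw [← h7]
    exact add_mem_add h3 h2
  · intro d hd d' hd' he
    have h5 := (hq d hd).2.2.2.2.1
    have h5' := (hq d' hd').2.2.2.2.1
    rw [← h5, ← h5']
    simp only [Sigma.mk.injEq, heq_eq_eq, Prod.mk.injEq] at he
    rw [he.2.1.1, he.2.2.2]

variable [Fintype H] {n : ℕ}

/-- the energy inequality -/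
theorem energy (A B : Fin n → Finset H)
    (h2 : ∀ i j k, i < k → Disjoint (A i + B j) (A j + B k)) (w : Fin n → Fin n → ℝ)
    (w0 : ∀ i j, 0 ≤ w i j)
    (hw : ∀ i j x, (nr (A i) (B j) x : ℝ) * nr (A j) (B i) x * w i j ≤ 1) :
    ∑ i, ∑ j, w i j * (((A i - B i) ∩ (A j - B j)).card : ℝ) ≤ n * Fintype.card H := by
  classical
  have key : ∀ i, ∑ j, w i j * (((A i - B i) ∩ (A j - B j)).card : ℝ) ≤ Fintype.card H := by
    intro i
    have e1 : ∀ j, w i j * (((A i - B i) ∩ (A j - B j)).card : ℝ) ≤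
        (((A i + B j) ∩ (A j + B i)).card : ℝ) := by
      intro j
      have e2 : (((A i - B i) ∩ (A j - B j)).card : ℝ) ≤
          ∑ x ∈ (A i + B j) ∩ (A j + B i), (nr (A i) (B j) x : ℝ) * nr (A j) (B i) x := by
        exact_mod_cast inter_le (A i) (B i) (A j) (B j)
      calc w i j * (((A i - B i) ∩ (A j - B j)).card : ℝ)
          ≤ w i j * ∑ x ∈ (A i + B j) ∩ (A j + B i),
              (nr (A i) (B j) x : ℝ) * nr (A j) (B i) x :=
            mul_le_mul_of_nonneg_left e2 (w0 i j)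
        _ = ∑ x ∈ (A i + B j) ∩ (A j + B i),
              (nr (A i) (B j) x : ℝ) * nr (A j) (B i) x * w i j := by
            rw [mul_sum]
            exact sum_congr rfl fun x _ => by ring
        _ ≤ ∑ _x ∈ (A i + B j) ∩ (A j + B i), (1 : ℝ) := sum_le_sum fun x _ => hw i j x
        _ = (((A i + B j) ∩ (A j + B i)).card : ℝ) := by simp
    refine (sum_le_sum fun j _ => e1 j).trans ?_
    have hd : ∀ j ∈ (univ : Finset (Fin n)), ∀ k ∈ (univ : Finset (Fin n)), j ≠ k →
        Disjoint ((A i + B j) ∩ (A j + B i)) ((A i + B k) ∩ (A k + B i)) := by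
      intro j _ k _ hjk
      rw [disjoint_left]
      intro x hx hx'
      rw [mem_inter] at hx hx'
      rcases lt_or_gt_of_ne hjk with h | h
      · have := h2 j i k h
        rw [disjoint_left] at this
        exact this hx.2 hx'.1
      · have := h2 k i j h
        rw [disjoint_left] at this
        exact this hx'.2 hx.1
    rw [← Nat.cast_sum, ← card_biUnion hd]
    exact_mod_cast card_le_univ _
  calc ∑ i, ∑ j, w i j * (((A i - B i) ∩ (A j - B j)).card : ℝ)
      ≤ ∑ _i : Fin n, (Fintype.card H : ℝ) := sum_le_sum fun i _ => key i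
    _ = n * Fintype.card H := by simp

omit [Fintype H] in
theorem card_sub_of_direct {A B : Finset H} (h : (A + B).card = A.card * B.card) :
    (A - B).card = A.card * B.card := by
  classical
  have h1 : (A ×ˢ B).card = A.card * B.card := card_product A B
  have h2 : A + B = (A ×ˢ B).image fun p => p.1 + p.2 := rfl
  have h3 : Set.InjOn (fun p : H × H => p.1 + p.2) (A ×ˢ B : Finset (H × H)) := by
    rw [← card_image_iff, ← h2, h, h1]
  have h4 : A - B = (A ×ˢ B).image fun p => p.1 - p.2 := rfl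
  rw [h4, card_image_of_injOn, h1]
  rintro ⟨a, b⟩ hab ⟨a', b'⟩ hab' he
  rw [mem_coe, mem_product] at hab hab'
  have he2 : a + b' = a' + b := by
    have : a - b = a' - b' := he
    rwa [sub_eq_sub_iff_add_eq_add] at this
  have h5 := @h3 (a, b') (mem_coe.2 (mem_product.2 ⟨hab.1, hab'.2⟩)) (a', b)
    (mem_coe.2 (mem_product.2 ⟨hab'.1, hab.2⟩)) he2
  rw [Prod.mk.injEq] at h5
  rw [h5.1, h5.2]

/-- the general bound: if the kernel has the lower bound `|J|² ≤ R ∑ w` on all subsets then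
`(∑ |A i| |B i|)² ≤ R n |H|²` -/
theorem main_bound (A B : Fin n → Finset H)
    (h1 : ∀ i, (A i + B i).card = (A i).card * (B i).card)
    (h2 : ∀ i j k, i < k → Disjoint (A i + B j) (A j + B k)) (w : Fin n → Fin n → ℝ)
    (w0 : ∀ i j, 0 ≤ w i j)
    (hw : ∀ i j x, (nr (A i) (B j) x : ℝ) * nr (A j) (B i) x * w i j ≤ 1)
    {R : ℝ} (hR0 : 0 ≤ R)
    (hR : ∀ J : Finset (Fin n), (J.card : ℝ) ^ 2 ≤ R * ∑ i ∈ J, ∑ j ∈ J, w i j) :
    (∑ i, ((A i).card : ℝ) * (B i).card) ^ 2 ≤ R * (n * (Fintype.card H : ℝ) ^ 2) := by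
  classical
  let D : Fin n → Finset H := fun i => A i - B i
  let J : H → Finset (Fin n) := fun x => univ.filter fun i => x ∈ D i
  have s1 : ∑ i, ((A i).card : ℝ) * (B i).card = ∑ x : H, ((J x).card : ℝ) := by
    have e1 : ∀ i, ((A i).card : ℝ) * (B i).card = ∑ x : H, if x ∈ D i then (1 : ℝ) else 0 := by
      intro i
      rw [← Nat.cast_mul, ← card_sub_of_direct (h1 i)]
      simp [D]
    simp_rw [e1]
    rw [sum_comm]
    refine sum_congr rfl fun x _ => ?_
    simp [J]
  have s2 : ∑ i, ∑ j, w i j * (((A i - B i) ∩ (A j - B j)).card : ℝ) =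
      ∑ x : H, ∑ i ∈ J x, ∑ j ∈ J x, w i j := by
    have e1 : ∀ i j, w i j * (((A i - B i) ∩ (A j - B j)).card : ℝ) =
        ∑ x : H, if x ∈ D i then (if x ∈ D j then w i j else 0) else 0 := by
      intro i j
      have e2 : ∀ x : H, (if x ∈ D i then (if x ∈ D j then w i j else 0) else 0) =
          if x ∈ D i ∩ D j then w i j else 0 := by
        intro x
        by_cases h3 : x ∈ D i <;> by_cases h4 : x ∈ D j <;> simp [h3, h4, mem_inter]
      simp_rw [e2]
      rw [← sum_filter, sum_const, filter_mem_eq_inter, univ_inter, nsmul_eq_mul, mul_comm]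
    simp_rw [e1]
    have e3 : ∀ i, ∑ j, ∑ x : H, (if x ∈ D i then (if x ∈ D j then w i j else 0) else 0) =
        ∑ x : H, ∑ j, (if x ∈ D i then (if x ∈ D j then w i j else 0) else 0) := fun i => sum_comm
    simp_rw [e3]
    rw [sum_comm]
    refine sum_congr rfl fun x _ => ?_
    rw [sum_filter]
    refine sum_congr rfl fun i _ => ?_
    by_cases h3 : x ∈ D i
    · simp only [h3, if_true]
      rw [sum_filter]
    · simp only [h3, if_false, sum_const_zero]
  have s3 := energy A B h2 w w0 hw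
  rw [s2] at s3
  have s4 : ∑ x : H, ((J x).card : ℝ) ^ 2 ≤ R * (n * Fintype.card H) := by
    calc ∑ x : H, ((J x).card : ℝ) ^ 2 ≤ ∑ x : H, R * ∑ i ∈ J x, ∑ j ∈ J x, w i j :=
          sum_le_sum fun x _ => hR (J x)
      _ = R * ∑ x : H, ∑ i ∈ J x, ∑ j ∈ J x, w i j := by rw [mul_sum]
      _ ≤ R * (n * Fintype.card H) := mul_le_mul_of_nonneg_left s3 hR0
  have s5 : (∑ x : H, ((J x).card : ℝ)) ^ 2 ≤
      (Fintype.card H : ℝ) * ∑ x : H, ((J x).card : ℝ) ^ 2 := by
    have := sq_sum_le_card_mul_sum_sq (s := (univ : Finset H)) (f := fun x => ((J x).card : ℝ))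
    rwa [card_univ] at this
  rw [s1]
  calc (∑ x : H, ((J x).card : ℝ)) ^ 2
      ≤ (Fintype.card H : ℝ) * ∑ x : H, ((J x).card : ℝ) ^ 2 := s5
    _ ≤ (Fintype.card H : ℝ) * (R * (n * Fintype.card H)) :=
        mul_le_mul_of_nonneg_left s4 (Nat.cast_nonneg _)
    _ = R * (n * (Fintype.card H : ℝ) ^ 2) := by ring

end Pool.Agent.SD5
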