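import Mathlib

/-!
# The Turán bound for kernels with values in `{0, 1}`
-/

set_option autoImplicit false

open Finset

namespace Pool.Agent.SD5

theorem turan_kernel {ι : Type*} [DecidableEq ι] (w : ι → ι → ℝ) (hs : ∀ i j, w i j = w j i)
    (h1 : ∀ i, w i i = 1) (h01 : ∀ i j, w i j = 0 ∨ w i j = 1) :
    ∀ (m : ℕ) (J : Finset ι), J.card = m → ∀ R : ℕ,
      (∀ S : Finset ι, S ⊆ J → (∀ i ∈ S, ∀ j ∈ S, i ≠ j → w i j = 0) → S.card ≤ R) →
      (J.card : ℝ) ^ 2 ≤ R * ∑ i ∈ J, ∑ j ∈ J, w i j := by
  classical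
  have w0 : ∀ i j, 0 ≤ w i j := by
    intro i j
    rcases h01 i j with h | h <;> rw [h] <;> norm_num
  intro m
  induction m using Nat.strong_induction_on with
  | _ m ih =>
    intro J hJ R hR
    by_cases hne : J = ∅
    · subst hne
      simp
    have hne' : J.Nonempty := nonempty_iff_ne_empty.2 hne
    obtain ⟨v, hv, hmin⟩ := exists_min_image J (fun i => ∑ j ∈ J, w i j) hne'
    let N : Finset ι := J.filter fun j => w v j = 1
    have hvN : v ∈ N := mem_filter.2 ⟨hv, h1 v⟩
    have hd : ∑ j ∈ J, w v j = (N.card : ℝ) := by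
      have e : ∀ j ∈ J, w v j = if w v j = 1 then (1 : ℝ) else 0 := by
        intro j _
        rcases h01 v j with h | h
        · rw [h]
          simp
        · rw [h]
          simp
      rw [sum_congr rfl e, ← sum_filter, sum_const, nsmul_eq_mul, mul_one]
    have hNJ : N ⊆ J := filter_subset _ _
    let J' : Finset ι := J \ N
    have hJ'card : J'.card + N.card = J.card := card_sdiff_add_card_eq_card hNJ
    have hNpos : 0 < N.card := card_pos.2 ⟨v, hvN⟩
    have hR1 : 1 ≤ R := by
      have := hR {v} (singleton_subset_iff.2 hv) (by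
        intro i hi j hj hij
        rw [mem_singleton] at hi hj
        exact absurd (hi.trans hj.symm) hij)
      simpa using this
    have hR' : ∀ S : Finset ι, S ⊆ J' → (∀ i ∈ S, ∀ j ∈ S, i ≠ j → w i j = 0) →
        S.card ≤ R - 1 := by
      intro S hS hS0
      have hvS : v ∉ S := fun h => (mem_sdiff.1 (hS h)).2 hvN
      have hz : ∀ s ∈ S, w v s = 0 := by
        intro s hs'
        have h2 := mem_sdiff.1 (hS hs')
        rcases h01 v s with h | h
        · exact h
        · exact absurd (mem_filter.2 ⟨h2.1, h⟩) h2.2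
      have h3 := hR (insert v S) (by
        intro s hs'
        rcases mem_insert.1 hs' with h | h
        · rw [h]; exact hv
        · exact (mem_sdiff.1 (hS h)).1) (by
        intro i hi j hj hij
        rcases mem_insert.1 hi with h | h
        · rcases mem_insert.1 hj with h' | h'
          · exact absurd (h.trans h'.symm) hij
          · rw [h]; exact hz j h'
        · rcases mem_insert.1 hj with h' | h'
          · rw [h', hs]; exact hz i h
          · exact hS0 i h j h' hij)
      rw [card_insert_of_notMem hvS] at h3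
      omega
    have hlt : J'.card < m := by omega
    have h4 := ih J'.card hlt J' rfl (R - 1) hR'
    have hRc : (((R - 1 : ℕ) : ℝ)) = (R : ℝ) - 1 := by
      rw [Nat.cast_sub hR1, Nat.cast_one]
    rw [hRc] at h4
    -- the decomposition of the sum
    have h5 : ∑ i ∈ J', ∑ j ∈ J', w i j + (N.card : ℝ) ^ 2 ≤ ∑ i ∈ J, ∑ j ∈ J, w i j := by
      have e1 : ∑ i ∈ J, ∑ j ∈ J, w i j =
          ∑ i ∈ J', ∑ j ∈ J, w i j + ∑ i ∈ N, ∑ j ∈ J, w i j := by
        rw [← sum_sdiff hNJ]
      rw [e1]
      refine add_le_add ?_ ?_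
      · refine sum_le_sum fun i _ => ?_
        exact sum_le_sum_of_subset_of_nonneg sdiff_subset fun j _ _ => w0 i j
      · calc (N.card : ℝ) ^ 2 = ∑ _i ∈ N, (N.card : ℝ) := by
              rw [sum_const, nsmul_eq_mul, sq]
          _ ≤ ∑ i ∈ N, ∑ j ∈ J, w i j := by
              refine sum_le_sum fun i hi => ?_
              rw [← hd]
              exact hmin i (hNJ hi)
    set x : ℝ := (J'.card : ℝ) with hx
    set d : ℝ := (N.card : ℝ) with hdd
    set f' : ℝ := ∑ i ∈ J', ∑ j ∈ J', w i j with hf'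
    have hf0 : 0 ≤ f' := sum_nonneg fun i _ => sum_nonneg fun j _ => w0 i j
    have hR1' : (1 : ℝ) ≤ R := by exact_mod_cast hR1
    have hcard : (J.card : ℝ) = x + d := by
      rw [hx, hdd, ← Nat.cast_add, hJ'card]
    have hx0 : 0 ≤ x := Nat.cast_nonneg _
    have hd0 : 0 ≤ d := Nat.cast_nonneg _
    have h6 : (x + d) ^ 2 ≤ R * (f' + d ^ 2) := by
      rcases eq_or_lt_of_le hR1' with h7 | h7
      · rw [← h7] at h4 ⊢
        have h8 : x = 0 := by nlinarith
        rw [h8]
        nlinarith
      · have h8 : 0 < (R : ℝ) - 1 := by linarith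
        have h9 : 0 ≤ ((R : ℝ) - 1) * (R * (f' + d ^ 2) - (x + d) ^ 2) := by
          nlinarith [sq_nonneg (x - (R - 1) * d), mul_le_mul_of_nonneg_left h4 hf0,
            mul_le_mul_of_nonneg_left h4 (by linarith : (0 : ℝ) ≤ R)]
        have h10 := nonneg_of_mul_nonneg_right h9 h8
        linarith
    calc (J.card : ℝ) ^ 2 = (x + d) ^ 2 := by rw [hcard]
      _ ≤ R * (f' + d ^ 2) := h6
      _ ≤ R * ∑ i ∈ J, ∑ j ∈ J, w i j := mul_le_mul_of_nonneg_left h5 (by linarith)

end Pool.Agent.SD5
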