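import Pool.Agent.Helper5_SD.Co

/-!
# Families adapted to a chain of subgroups
-/

set_option autoImplicit false

open Finset
open scoped Pointwise

namespace Pool.Agent.SD5

variable {H : Type*} [AddCommGroup H] [Fintype H] [DecidableEq H]

/-- the number of classes modulo `K'` in a set whose differences are in `K` -/
theorem classes_le (K K' : AddSubgroup H) (hK : K' ≤ K) (S : Finset H)
    (hS : ∀ a ∈ S, ∀ a' ∈ S, a - a' ∈ K) :
    ∃ T : Finset H, T ⊆ S ∧ T.card * Nat.card K' ≤ Nat.card K ∧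
      (∀ a ∈ S, ∃ t ∈ T, a - t ∈ K') ∧
      (∀ t ∈ T, ∀ t' ∈ T, t - t' ∈ K' → t = t') := by
  classical
  -- a maximal set of representatives
  have hex : ∃ T ∈ S.powerset.filter fun T => ∀ t ∈ T, ∀ t' ∈ T, t - t' ∈ K' → t = t',
      ∀ T' ∈ S.powerset.filter fun T => ∀ t ∈ T, ∀ t' ∈ T, t - t' ∈ K' → t = t',
        T'.card ≤ T.card := by
    refine exists_max_image _ (fun T : Finset H => T.card) ⟨∅, ?_⟩
    simp
  obtain ⟨T, hT, hmax⟩ := hex
  rw [mem_filter, mem_powerset] at hT
  refine ⟨T, hT.1, ?_, ?_, hT.2⟩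
  · by_cases hne : T = ∅
    · simp [hne]
    obtain ⟨t0, ht0⟩ := nonempty_iff_ne_empty.2 hne
    have h1 : T.card * Nat.card K' = Nat.card ({t : H // t ∈ T} × K') := by
      rw [Nat.card_prod]
      simp
    rw [h1]
    refine Nat.card_le_card_of_injective
      (fun q : {t : H // t ∈ T} × K' => (⟨(q.1 : H) - t0 + q.2, K.add_mem
        (hS _ (hT.1 q.1.2) _ (hT.1 ht0)) (hK q.2.2)⟩ : K)) ?_
    rintro ⟨⟨t, ht⟩, ⟨k, hk⟩⟩ ⟨⟨t', ht'⟩, ⟨k', hk'⟩⟩ he
    simp only [Subtype.mk.injEq] at he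
    have h2 : t + k = t' + k' := by
      have h3 : t - t0 + k + t0 = t' - t0 + k' + t0 := by rw [he]
      have e1 : t - t0 + k + t0 = t + k := by abel
      have e2 : t' - t0 + k' + t0 = t' + k' := by abel
      rwa [e1, e2] at h3
    have h3 : t - t' = k' - k := by
      rw [sub_eq_sub_iff_add_eq_add, h2, add_comm]
    have h4 : t = t' := hT.2 t ht t' ht' (by
      rw [h3]
      exact K'.sub_mem hk' hk)
    subst h4
    have h5 : k = k' := add_left_cancel h2
    subst h5
    rfl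
  · intro a ha
    by_contra hcon
    push Not at hcon
    have haT : a ∉ T := fun h => hcon a h (by rw [sub_self]; exact K'.zero_mem)
    have h1 := hmax (insert a T) (by
      rw [mem_filter, mem_powerset]
      refine ⟨insert_subset ha hT.1, ?_⟩
      intro t ht t' ht' h
      rcases mem_insert.1 ht with h2 | h2
      · rcases mem_insert.1 ht' with h3 | h3
        · rw [h2, h3]
        · rw [h2] at h
          exact absurd h (hcon t' h3)
      · rcases mem_insert.1 ht' with h3 | h3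
        · rw [h3] at h
          have h4 := K'.neg_mem h
          rw [neg_sub] at h4
          exact absurd h4 (hcon t h2)
        · exact hT.2 t h2 t' h3 h)
    rw [card_insert_of_notMem haT] at h1
    omega

/-- the index of a step of the chain -/
noncomputable def hh (K : ℕ → AddSubgroup H) (c : ℕ) : ℝ :=
  (Nat.card (K c) : ℝ) / Nat.card (K (c + 1))

omit [DecidableEq H] in
theorem card_pos' (K : AddSubgroup H) : (0 : ℝ) < Nat.card K := by
  have : 0 < Nat.card K := Nat.card_pos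
  exact_mod_cast this

omit [DecidableEq H] in
theorem one_le_hh {K : ℕ → AddSubgroup H} (hK : Antitone K) (c : ℕ) : 1 ≤ hh K c := by
  unfold hh
  rw [one_le_div (card_pos' _)]
  have : Nat.card (K (c + 1)) ≤ Nat.card (K c) :=
    AddSubgroup.card_le_of_le (hK (Nat.le_succ c))
  exact_mod_cast this

/-- the number of representations, going down the chain -/
theorem rep_le (K : ℕ → AddSubgroup H) (hK : Antitone K) {D : ℕ} (hD : K D = ⊥)
    (A B : Finset H) (F : Set ℕ)
    (hF : ∀ c, c ∉ F → (∀ a ∈ A, ∀ a' ∈ A, a - a' ∈ K c → a - a' ∈ K (c + 1)) ∨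
      (∀ b ∈ B, ∀ b' ∈ B, b - b' ∈ K c → b - b' ∈ K (c + 1))) (x : H) [DecidablePred (· ∈ F)] :
    ∀ (m t : ℕ), t + m = D → ∀ S : Finset H, (∀ a ∈ S, a ∈ A ∧ x - a ∈ B) →
      (∀ a ∈ S, ∀ a' ∈ S, a - a' ∈ K t) →
      (S.card : ℝ) ≤ ∏ c ∈ Ico t D, if c ∈ F then hh K c else 1 := by
  classical
  intro m
  induction m with
  | zero =>
    intro t ht S _ hS
    rw [add_zero] at ht
    subst ht
    rw [Ico_self, prod_empty]
    have : S.card ≤ 1 := by
      rw [card_le_one]
      intro a ha b hb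
      have h1 := hS a ha b hb
      rw [hD, AddSubgroup.mem_bot, sub_eq_zero] at h1
      exact h1
    exact_mod_cast this
  | succ m ih =>
    intro t ht S hS1 hS2
    have htD : t < D := by omega
    obtain ⟨T, hTS, hTc, hTcov, hTsep⟩ :=
      classes_le (K t) (K (t + 1)) (hK (Nat.le_succ t)) S hS2
    have hfib : ∀ u ∈ T, ((S.filter fun a => a - u ∈ K (t + 1)).card : ℝ) ≤
        ∏ c ∈ Ico (t + 1) D, if c ∈ F then hh K c else 1 := by
      intro u _
      refine ih (t + 1) (by omega) _ (fun a ha => hS1 a (mem_filter.1 ha).1) ?_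
      intro a ha a' ha'
      have h1 := (K (t + 1)).sub_mem (mem_filter.1 ha).2 (mem_filter.1 ha').2
      rwa [sub_sub_sub_cancel_right] at h1
    have hcov : S ⊆ T.biUnion fun u => S.filter fun a => a - u ∈ K (t + 1) := by
      intro a ha
      obtain ⟨u, hu, hau⟩ := hTcov a ha
      exact mem_biUnion.2 ⟨u, hu, mem_filter.2 ⟨ha, hau⟩⟩
    have hP0 : 0 ≤ ∏ c ∈ Ico (t + 1) D, (if c ∈ F then hh K c else 1 : ℝ) :=
      prod_nonneg fun c _ => by
        split_ifs
        · exact le_trans zero_le_one (one_le_hh hK c)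
        · exact zero_le_one
    have h2 : (S.card : ℝ) ≤ T.card * ∏ c ∈ Ico (t + 1) D, (if c ∈ F then hh K c else 1 : ℝ) := by
      calc (S.card : ℝ) ≤ ((T.biUnion fun u => S.filter fun a => a - u ∈ K (t + 1)).card : ℝ) := by
            exact_mod_cast card_le_card hcov
        _ ≤ ∑ u ∈ T, ((S.filter fun a => a - u ∈ K (t + 1)).card : ℝ) := by
            exact_mod_cast card_biUnion_le
        _ ≤ ∑ _u ∈ T, ∏ c ∈ Ico (t + 1) D, (if c ∈ F then hh K c else 1 : ℝ) :=
            sum_le_sum hfib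
        _ = _ := by rw [sum_const, nsmul_eq_mul]
    have h3 : (T.card : ℝ) ≤ if t ∈ F then hh K t else 1 := by
      by_cases htF : t ∈ F
      · rw [if_pos htF]
        unfold hh
        rw [le_div_iff₀ (card_pos' _)]
        exact_mod_cast hTc
      · rw [if_neg htF]
        have : T.card ≤ 1 := by
          rw [card_le_one]
          intro a ha b hb
          refine hTsep a ha b hb ?_
          rcases hF t htF with h | h
          · exact h a (hS1 a (hTS ha)).1 b (hS1 b (hTS hb)).1 (hS2 a (hTS ha) b (hTS hb))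
          · have h4 := h (x - b) (hS1 b (hTS hb)).2 (x - a) (hS1 a (hTS ha)).2
            have h5 : x - b - (x - a) = a - b := by abel
            rw [h5] at h4
            exact h4 (hS2 a (hTS ha) b (hTS hb))
        exact_mod_cast this
    rw [← prod_Ico_consecutive _ (Nat.le_succ t) (Nat.succ_le_of_lt htD),
      Nat.Ico_succ_singleton, prod_singleton]
    exact h2.trans (mul_le_mul_of_nonneg_right h3 hP0)

theorem nr_le_chain (K : ℕ → AddSubgroup H) (hK : Antitone K) {D : ℕ} (h0 : K 0 = ⊤)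
    (hD : K D = ⊥) (A B : Finset H) (F : Set ℕ)
    (hF : ∀ c, c ∉ F → (∀ a ∈ A, ∀ a' ∈ A, a - a' ∈ K c → a - a' ∈ K (c + 1)) ∨
      (∀ b ∈ B, ∀ b' ∈ B, b - b' ∈ K c → b - b' ∈ K (c + 1))) (x : H) [DecidablePred (· ∈ F)] :
    (nr A B x : ℝ) ≤ ∏ c ∈ range D, if c ∈ F then hh K c else 1 := by
  classical
  have h1 : nr A B x = (A.filter fun a => x - a ∈ B).card := by
    unfold nr
    refine card_bij' (fun p _ => p.1) (fun a _ => (a, x - a)) ?_ ?_ ?_ ?_
    · rintro ⟨a, b⟩ hp
      rw [mem_filter, mem_product] at hp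
      rw [mem_filter]
      refine ⟨hp.1.1, ?_⟩
      rw [← hp.2]
      simpa using hp.1.2
    · intro a ha
      rw [mem_filter] at ha
      rw [mem_filter, mem_product]
      exact ⟨⟨ha.1, ha.2⟩, by simp⟩
    · rintro ⟨a, b⟩ hp
      rw [mem_filter, mem_product] at hp
      simp only [Prod.mk.injEq, true_and]
      rw [← hp.2]
      simp
    · intro a _
      rfl
  rw [h1, range_eq_Ico]
  refine rep_le K hK hD A B F hF x D 0 (zero_add D) _ (fun a ha => mem_filter.1 ha) ?_
  intro a _ a' _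
  rw [h0]
  exact AddSubgroup.mem_top _

/-- the bound for families adapted to a chain -/
theorem chain_bound {n : ℕ} (A B : Fin n → Finset H)
    (h1 : ∀ i, (A i + B i).card = (A i).card * (B i).card)
    (h2 : ∀ i j k, i < k → Disjoint (A i + B j) (A j + B k))
    (K : ℕ → AddSubgroup H) (hK : Antitone K) {D : ℕ} (h0 : K 0 = ⊤) (hD : K D = ⊥)
    (L : Fin n → Set ℕ)
    (hA : ∀ i, ∀ c, c ∈ L i → ∀ a ∈ A i, ∀ a' ∈ A i, a - a' ∈ K c → a - a' ∈ K (c + 1))
    (hB : ∀ i, ∀ c, c ∉ L i → ∀ b ∈ B i, ∀ b' ∈ B i, b - b' ∈ K c → b - b' ∈ K (c + 1)) :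
    (∑ i, ((A i).card : ℝ) * (B i).card) ^ 2 ≤
      (∏ c ∈ range D, 2 * hh K c / (hh K c + 1)) * (n * (Fintype.card H : ℝ) ^ 2) := by
  classical
  have hpos : ∀ c, (0 : ℝ) < hh K c := fun c => lt_of_lt_of_le zero_lt_one (one_le_hh hK c)
  let q : ℕ → ℝ := fun c => 1 / hh K c
  have hq0 : ∀ c, 0 < q c := fun c => one_div_pos.2 (hpos c)
  have hq1 : ∀ c, q c ≤ 1 := fun c => (div_le_one (hpos c)).2 (one_le_hh hK c)
  let w : Fin n → Fin n → ℝ := fun i j =>
    ∏ c ∈ range D, if (c ∈ L i ↔ c ∈ L j) then 1 else q c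
  have w0 : ∀ i j, 0 ≤ w i j := fun i j => prod_nonneg fun c _ => by
    split_ifs
    · exact zero_le_one
    · exact (hq0 c).le
  have hw : ∀ i j x, (nr (A i) (B j) x : ℝ) * nr (A j) (B i) x * w i j ≤ 1 := by
    intro i j x
    have hF : ∀ i j, ∀ c, c ∉ {c | c ∈ L j ∧ c ∉ L i} →
        (∀ a ∈ A i, ∀ a' ∈ A i, a - a' ∈ K c → a - a' ∈ K (c + 1)) ∨
        (∀ b ∈ B j, ∀ b' ∈ B j, b - b' ∈ K c → b - b' ∈ K (c + 1)) := by
      intro i j c hc
      by_cases h3 : c ∈ L i
      · exact Or.inl (hA i c h3)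
      · refine Or.inr (hB j c fun h4 => hc ⟨h4, h3⟩)
    have e1 := nr_le_chain K hK h0 hD (A i) (B j) {c | c ∈ L j ∧ c ∉ L i} (hF i j) x
    have e2 := nr_le_chain K hK h0 hD (A j) (B i) {c | c ∈ L i ∧ c ∉ L j} (hF j i) x
    calc (nr (A i) (B j) x : ℝ) * nr (A j) (B i) x * w i j
        ≤ (∏ c ∈ range D, if c ∈ {c | c ∈ L j ∧ c ∉ L i} then hh K c else 1) *
          (∏ c ∈ range D, if c ∈ {c | c ∈ L i ∧ c ∉ L j} then hh K c else 1) * w i j := by
          refine mul_le_mul_of_nonneg_right ?_ (w0 i j)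
          refine mul_le_mul e1 e2 (Nat.cast_nonneg _) (prod_nonneg fun c _ => ?_)
          split_ifs
          · exact (hpos c).le
          · exact zero_le_one
      _ = ∏ c ∈ range D, (1 : ℝ) := by
          rw [← prod_mul_distrib, ← prod_mul_distrib]
          refine prod_congr rfl fun c _ => ?_
          have hne := (hpos c).ne'
          by_cases h3 : c ∈ L i <;> by_cases h4 : c ∈ L j <;>
            simp [h3, h4, q, hne, Set.mem_ofPred_eq]
      _ ≤ 1 := by simp
  refine main_bound A B h1 h2 w w0 hw (prod_nonneg fun c _ => ?_) ?_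
  · have := hpos c
    positivity
  intro J
  let χ : Fin n → ℕ → ℝ := fun i c => if c ∈ L i then 1 else -1
  have h3 := prod_kernel (range D) J (fun c => (1 + q c) / 2) (fun c => (1 - q c) / 2)
    (fun c => by have := hq0 c; positivity) (fun c => by have := hq1 c; linarith) χ
  have h4 : ∀ i j, ∏ c ∈ range D, ((1 + q c) / 2 + (1 - q c) / 2 * (χ i c * χ j c)) = w i j := by
    intro i j
    refine prod_congr rfl fun c _ => ?_
    by_cases h5 : c ∈ L i <;> by_cases h6 : c ∈ L j <;> simp [h5, h6, χ] <;> ring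
  simp_rw [h4] at h3
  have h5 : (∏ c ∈ range D, 2 * hh K c / (hh K c + 1)) * ∏ c ∈ range D, ((1 + q c) / 2) = 1 := by
    rw [← prod_mul_distrib]
    refine prod_eq_one fun c _ => ?_
    have hne := hpos c
    simp only [q]
    field_simp
  have h6 : (0 : ℝ) ≤ ∏ c ∈ range D, 2 * hh K c / (hh K c + 1) :=
    prod_nonneg fun c _ => by
      have := hpos c
      positivity
  calc (J.card : ℝ) ^ 2 = (∏ c ∈ range D, 2 * hh K c / (hh K c + 1)) *
        ((J.card : ℝ) ^ 2 * ∏ c ∈ range D, ((1 + q c) / 2)) := by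
        rw [mul_left_comm, h5, mul_one]
    _ ≤ _ := mul_le_mul_of_nonneg_left h3 h6

end Pool.Agent.SD5
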