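import Pool.Agent.Helper5_SD.En

/-!
# Families which live on complementary sets of coordinates
-/

set_option autoImplicit false

open Finset
open scoped Pointwise

namespace Pool.Agent.SD5

/-- a positive definite kernel of product form -/
theorem prod_kernel {ι κ : Type*} [DecidableEq ι] (s : Finset ι) (J : Finset κ) (a b : ι → ℝ)
    (ha : ∀ c, 0 ≤ a c) (hb : ∀ c, 0 ≤ b c) (χ : κ → ι → ℝ) :
    (J.card : ℝ) ^ 2 * ∏ c ∈ s, a c ≤
      ∑ i ∈ J, ∑ j ∈ J, ∏ c ∈ s, (a c + b c * (χ i c * χ j c)) := by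
  classical
  have e1 : ∀ i j, ∏ c ∈ s, (a c + b c * (χ i c * χ j c)) =
      ∑ t ∈ s.powerset, ((∏ c ∈ t, a c) * ∏ c ∈ s \ t, b c) *
        ((∏ c ∈ s \ t, χ i c) * ∏ c ∈ s \ t, χ j c) := by
    intro i j
    rw [prod_add]
    refine sum_congr rfl fun t _ => ?_
    rw [prod_mul_distrib, prod_mul_distrib]
    ring
  have e2 : ∑ i ∈ J, ∑ j ∈ J, ∏ c ∈ s, (a c + b c * (χ i c * χ j c)) =
      ∑ t ∈ s.powerset, ((∏ c ∈ t, a c) * ∏ c ∈ s \ t, b c) *
        (∑ i ∈ J, ∏ c ∈ s \ t, χ i c) ^ 2 := by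
    simp_rw [e1]
    have e3 : ∀ i, ∑ j ∈ J, ∑ t ∈ s.powerset, ((∏ c ∈ t, a c) * ∏ c ∈ s \ t, b c) *
        ((∏ c ∈ s \ t, χ i c) * ∏ c ∈ s \ t, χ j c) =
        ∑ t ∈ s.powerset, ∑ j ∈ J, ((∏ c ∈ t, a c) * ∏ c ∈ s \ t, b c) *
        ((∏ c ∈ s \ t, χ i c) * ∏ c ∈ s \ t, χ j c) := fun i => sum_comm
    simp_rw [e3]
    rw [sum_comm]
    refine sum_congr rfl fun t _ => ?_
    rw [sq, sum_mul_sum, mul_sum]
    refine sum_congr rfl fun i _ => ?_
    rw [mul_sum]
  rw [e2]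
  have h0 : ∀ t ∈ s.powerset, 0 ≤ ((∏ c ∈ t, a c) * ∏ c ∈ s \ t, b c) *
      (∑ i ∈ J, ∏ c ∈ s \ t, χ i c) ^ 2 := fun t _ =>
    mul_nonneg (mul_nonneg (prod_nonneg fun c _ => ha c) (prod_nonneg fun c _ => hb c))
      (sq_nonneg _)
  have h1 := single_le_sum h0 (mem_powerset_self s)
  refine le_trans (le_of_eq ?_) h1
  rw [Finset.sdiff_self]
  simp only [prod_empty, mul_one, sum_const, nsmul_eq_mul]
  ring

section

variable {ι : Type*} [Fintype ι] [DecidableEq ι] {G : ι → Type*} [∀ c, AddCommGroup (G c)]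
  [∀ c, Fintype (G c)] [∀ c, DecidableEq (G c)]

/-- the number of representations is at most the product of the orders of the free factors -/
theorem nr_le (A B : Finset (∀ c, G c)) (L M : Finset ι)
    (hA : ∀ a ∈ A, ∀ a' ∈ A, ∀ c ∈ L, a c = a' c)
    (hB : ∀ b ∈ B, ∀ b' ∈ B, ∀ c, c ∉ M → b c = b' c) (x : ∀ c, G c) :
    (nr A B x : ℝ) ≤ ∏ c : ι, if c ∈ M ∧ c ∉ L then (Fintype.card (G c) : ℝ) else 1 := by
  classical
  have h1 : nr A B x ≤ Fintype.card (∀ c : {c : ι // c ∈ M ∧ c ∉ L}, G c.1) := by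
    unfold nr
    rw [← card_univ]
    refine card_le_card_of_injOn (fun p c => p.1 c.1) (fun _ _ => mem_coe.2 (mem_univ _)) ?_
    rintro ⟨a, b⟩ hab ⟨a', b'⟩ hab' he
    rw [mem_coe, mem_filter, mem_product] at hab hab'
    have h2 : a = a' := by
      funext c
      by_cases hc : c ∈ L
      · exact hA a hab.1.1 a' hab'.1.1 c hc
      by_cases hc' : c ∈ M
      · exact congr_fun he ⟨c, hc', hc⟩
      · have h3 := hB b hab.1.2 b' hab'.1.2 c hc'
        have h4 := congr_fun (hab.2.trans hab'.2.symm) c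
        simp only [Pi.add_apply] at h4
        rw [h3] at h4
        exact add_right_cancel h4
    have h5 := hab.2.trans hab'.2.symm
    simp only at h5
    rw [h2] at h5
    rw [h2, add_left_cancel h5]
  have h2 : Fintype.card (∀ c : {c : ι // c ∈ M ∧ c ∉ L}, G c.1) =
      ∏ c : ι, if c ∈ M ∧ c ∉ L then Fintype.card (G c) else 1 := by
    rw [Fintype.card_pi, ← prod_filter]
    rw [← prod_subtype (univ.filter fun c : ι => c ∈ M ∧ c ∉ L) (by simp)
      (fun c => Fintype.card (G c))]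
  rw [h2] at h1
  calc (nr A B x : ℝ) ≤ ((∏ c : ι, if c ∈ M ∧ c ∉ L then Fintype.card (G c) else 1 : ℕ) : ℝ) := by
        exact_mod_cast h1
    _ = _ := by
        rw [Nat.cast_prod]
        refine prod_congr rfl fun c _ => ?_
        split_ifs <;> simp

/-- the coordinate bound -/
theorem coord_bound {n : ℕ} (A B : Fin n → Finset (∀ c, G c)) (L : Fin n → Finset ι)
    (h1 : ∀ i, (A i + B i).card = (A i).card * (B i).card)
    (h2 : ∀ i j k, i < k → Disjoint (A i + B j) (A j + B k))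
    (hA : ∀ i, ∀ a ∈ A i, ∀ a' ∈ A i, ∀ c ∈ L i, a c = a' c)
    (hB : ∀ i, ∀ b ∈ B i, ∀ b' ∈ B i, ∀ c, c ∉ L i → b c = b' c) :
    (∑ i, ((A i).card : ℝ) * (B i).card) ^ 2 ≤
      (∏ c : ι, 2 * (Fintype.card (G c) : ℝ) / (Fintype.card (G c) + 1)) *
        (n * (Fintype.card (∀ c, G c) : ℝ) ^ 2) := by
  classical
  have hpos : ∀ c, (0 : ℝ) < Fintype.card (G c) := fun c => by
    exact_mod_cast Fintype.card_pos
  let q : ι → ℝ := fun c => 1 / (Fintype.card (G c) : ℝ)
  have hq0 : ∀ c, 0 < q c := fun c => one_div_pos.2 (hpos c)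
  have hq1 : ∀ c, q c ≤ 1 := fun c => by
    have : (1 : ℝ) ≤ Fintype.card (G c) := by exact_mod_cast Fintype.card_pos (α := G c)
    exact (div_le_one (hpos c)).2 this
  let w : Fin n → Fin n → ℝ := fun i j => ∏ c : ι, if (c ∈ L i ↔ c ∈ L j) then 1 else q c
  have w0 : ∀ i j, 0 ≤ w i j := fun i j => prod_nonneg fun c _ => by
    split_ifs
    · exact zero_le_one
    · exact (hq0 c).le
  have hw : ∀ i j x, (nr (A i) (B j) x : ℝ) * nr (A j) (B i) x * w i j ≤ 1 := by
    intro i j x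
    have e1 := nr_le (A i) (B j) (L i) (L j) (hA i) (hB j) x
    have e2 := nr_le (A j) (B i) (L j) (L i) (hA j) (hB i) x
    calc (nr (A i) (B j) x : ℝ) * nr (A j) (B i) x * w i j
        ≤ (∏ c : ι, if c ∈ L j ∧ c ∉ L i then (Fintype.card (G c) : ℝ) else 1) *
          (∏ c : ι, if c ∈ L i ∧ c ∉ L j then (Fintype.card (G c) : ℝ) else 1) * w i j := by
          refine mul_le_mul_of_nonneg_right ?_ (w0 i j)
          refine mul_le_mul e1 e2 (Nat.cast_nonneg _) (prod_nonneg fun c _ => ?_)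
          split_ifs
          · exact (hpos c).le
          · exact zero_le_one
      _ = ∏ c : ι, (1 : ℝ) := by
          rw [← prod_mul_distrib, ← prod_mul_distrib]
          refine prod_congr rfl fun c _ => ?_
          have hne := (hpos c).ne'
          by_cases h3 : c ∈ L i <;> by_cases h4 : c ∈ L j <;> simp [h3, h4, q, hne]
      _ ≤ 1 := by simp
  refine main_bound A B h1 h2 w w0 hw (prod_nonneg fun c _ => ?_) ?_
  · have := hpos c
    positivity
  intro J
  let χ : Fin n → ι → ℝ := fun i c => if c ∈ L i then 1 else -1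
  have h3 := prod_kernel (univ : Finset ι) J (fun c => (1 + q c) / 2) (fun c => (1 - q c) / 2)
    (fun c => by have := hq0 c; positivity) (fun c => by have := hq1 c; linarith) χ
  have h4 : ∀ i j, ∏ c : ι, ((1 + q c) / 2 + (1 - q c) / 2 * (χ i c * χ j c)) = w i j := by
    intro i j
    refine prod_congr rfl fun c _ => ?_
    by_cases h5 : c ∈ L i <;> by_cases h6 : c ∈ L j <;> simp [h5, h6, χ] <;> ring
  simp_rw [h4] at h3
  have h5 : (∏ c : ι, 2 * (Fintype.card (G c) : ℝ) / (Fintype.card (G c) + 1)) *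
      ∏ c : ι, ((1 + q c) / 2) = 1 := by
    rw [← prod_mul_distrib]
    refine prod_eq_one fun c _ => ?_
    have hne := hpos c
    simp only [q]
    field_simp
  have h6 : (0 : ℝ) ≤ ∏ c : ι, 2 * (Fintype.card (G c) : ℝ) / (Fintype.card (G c) + 1) :=
    prod_nonneg fun c _ => by
      have := hpos c
      positivity
  calc (J.card : ℝ) ^ 2 = (∏ c : ι, 2 * (Fintype.card (G c) : ℝ) / (Fintype.card (G c) + 1)) *
        ((J.card : ℝ) ^ 2 * ∏ c : ι, ((1 + q c) / 2)) := by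
        rw [mul_left_comm, h5, mul_one]
    _ ≤ _ := mul_le_mul_of_nonneg_left h3 h6

end

end Pool.Agent.SD5
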