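import Pool.Agent.Helper5_SD.Co

/-!
# Families with lifts adapted to a chain of subgroups
-/

set_option autoImplicit false

open Finset
open scoped Pointwise

namespace Pool.Agent.SD5

section lift

variable {G : Type*} [AddCommGroup G] [DecidableEq G]

/-- at most `h` classes modulo `K'` in a coset of `K` -/
def Idx (K K' : AddSubgroup G) (h : ℝ) : Prop :=
  ∀ T : Finset G, (∀ t ∈ T, ∀ t' ∈ T, t - t' ∈ K) → (∀ t ∈ T, ∀ t' ∈ T, t - t' ∈ K' → t = t') →
    (T.card : ℝ) ≤ h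

/-- a maximal system of representatives -/
theorem reps (K' : AddSubgroup G) (S : Finset G) :
    ∃ T : Finset G, T ⊆ S ∧ (∀ a ∈ S, ∃ t ∈ T, a - t ∈ K') ∧
      (∀ t ∈ T, ∀ t' ∈ T, t - t' ∈ K' → t = t') := by
  classical
  have hex : ∃ T ∈ S.powerset.filter fun T => ∀ t ∈ T, ∀ t' ∈ T, t - t' ∈ K' → t = t',
      ∀ T' ∈ S.powerset.filter fun T => ∀ t ∈ T, ∀ t' ∈ T, t - t' ∈ K' → t = t',
        T'.card ≤ T.card := by
    refine exists_max_image _ (fun T : Finset G => T.card) ⟨∅, ?_⟩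
    simp
  obtain ⟨T, hT, hmax⟩ := hex
  rw [mem_filter, mem_powerset] at hT
  refine ⟨T, hT.1, ?_, hT.2⟩
  intro a ha
  by_contra hcon
  push Not at hcon
  have haT : a ∉ T := fun h => hcon a h (by rw [sub_self]; exact K'.zero_mem)
  have h1 := hmax (insert a T) (by
    rw [mem_filter, mem_powerset]
    refine ⟨insert_subset ha hT.1, ?_⟩
    intro t ht t' ht' h
    rcases mem_insert.1 ht with h2 | h2
    · rcases mem_insert.1 ht' with h3 | h3
      · rw [h2, h3]
      · rw [h2] at h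
        exact absurd h (hcon t' h3)
    · rcases mem_insert.1 ht' with h3 | h3
      · rw [h3] at h
        have h4 := K'.neg_mem h
        rw [neg_sub] at h4
        exact absurd h4 (hcon t h2)
      · exact hT.2 t h2 t' h3 h)
  rw [card_insert_of_notMem haT] at h1
  omega

/-- the number of representations, going down the chain -/
theorem rep_le' (K : ℕ → AddSubgroup G) {D : ℕ} (h : ℕ → ℝ) (hh1 : ∀ c, 1 ≤ h c)
    (hidx : ∀ c, c < D → Idx (K c) (K (c + 1)) (h c))
    (A B : Finset G) (hD : ∀ a ∈ A, ∀ a' ∈ A, a - a' ∈ K D → a = a') (F : Set ℕ)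
    (hF : ∀ c, c < D → c ∉ F → (∀ a ∈ A, ∀ a' ∈ A, a - a' ∈ K c → a - a' ∈ K (c + 1)) ∨
      (∀ b ∈ B, ∀ b' ∈ B, b - b' ∈ K c → b - b' ∈ K (c + 1))) (x : G) [DecidablePred (· ∈ F)] :
    ∀ (m t : ℕ), t + m = D → ∀ S : Finset G, (∀ a ∈ S, a ∈ A ∧ x - a ∈ B) →
      (∀ a ∈ S, ∀ a' ∈ S, a - a' ∈ K t) →
      (S.card : ℝ) ≤ ∏ c ∈ Ico t D, if c ∈ F then h c else 1 := by
  classical
  intro m
  induction m with
  | zero =>
    intro t ht S hS1 hS
    rw [add_zero] at ht
    subst ht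
    rw [Ico_self, prod_empty]
    have : S.card ≤ 1 := by
      rw [card_le_one]
      intro a ha b hb
      exact hD a (hS1 a ha).1 b (hS1 b hb).1 (hS a ha b hb)
    exact_mod_cast this
  | succ m ih =>
    intro t ht S hS1 hS2
    have htD : t < D := by omega
    obtain ⟨T, hTS, hTcov, hTsep⟩ := reps (K (t + 1)) S
    have hfib : ∀ u ∈ T, ((S.filter fun a => a - u ∈ K (t + 1)).card : ℝ) ≤
        ∏ c ∈ Ico (t + 1) D, if c ∈ F then h c else 1 := by
      intro u _
      refine ih (t + 1) (by omega) _ (fun a ha => hS1 a (mem_filter.1 ha).1) ?_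
      intro a ha a' ha'
      have h1 := (K (t + 1)).sub_mem (mem_filter.1 ha).2 (mem_filter.1 ha').2
      rwa [sub_sub_sub_cancel_right] at h1
    have hcov : S ⊆ T.biUnion fun u => S.filter fun a => a - u ∈ K (t + 1) := by
      intro a ha
      obtain ⟨u, hu, hau⟩ := hTcov a ha
      exact mem_biUnion.2 ⟨u, hu, mem_filter.2 ⟨ha, hau⟩⟩
    have hP0 : 0 ≤ ∏ c ∈ Ico (t + 1) D, (if c ∈ F then h c else 1 : ℝ) :=
      prod_nonneg fun c _ => by
        split_ifs
        · exact le_trans zero_le_one (hh1 c)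
        · exact zero_le_one
    have h2 : (S.card : ℝ) ≤ T.card * ∏ c ∈ Ico (t + 1) D, (if c ∈ F then h c else 1 : ℝ) := by
      calc (S.card : ℝ) ≤ ((T.biUnion fun u => S.filter fun a => a - u ∈ K (t + 1)).card : ℝ) := by
            exact_mod_cast card_le_card hcov
        _ ≤ ∑ u ∈ T, ((S.filter fun a => a - u ∈ K (t + 1)).card : ℝ) := by
            exact_mod_cast card_biUnion_le
        _ ≤ ∑ _u ∈ T, ∏ c ∈ Ico (t + 1) D, (if c ∈ F then h c else 1 : ℝ) :=
            sum_le_sum hfib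
        _ = _ := by rw [sum_const, nsmul_eq_mul]
    have hT2 : ∀ a ∈ T, ∀ b ∈ T, a - b ∈ K t := fun a ha b hb => hS2 a (hTS ha) b (hTS hb)
    have h3 : (T.card : ℝ) ≤ if t ∈ F then h t else 1 := by
      by_cases htF : t ∈ F
      · rw [if_pos htF]
        exact hidx t htD T hT2 hTsep
      · rw [if_neg htF]
        have : T.card ≤ 1 := by
          rw [card_le_one]
          intro a ha b hb
          refine hTsep a ha b hb ?_
          rcases hF t htD htF with h | h
          · exact h a (hS1 a (hTS ha)).1 b (hS1 b (hTS hb)).1 (hT2 a ha b hb)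
          · have h4 := h (x - b) (hS1 b (hTS hb)).2 (x - a) (hS1 a (hTS ha)).2
            have h5 : x - b - (x - a) = a - b := by abel
            rw [h5] at h4
            exact h4 (hT2 a ha b hb)
        exact_mod_cast this
    rw [← prod_Ico_consecutive _ (Nat.le_succ t) (Nat.succ_le_of_lt htD),
      Nat.Ico_succ_singleton, prod_singleton]
    exact h2.trans (mul_le_mul_of_nonneg_right h3 hP0)

theorem nr_eq_card (A B : Finset G) (x : G) : nr A B x = (A.filter fun a => x - a ∈ B).card := by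
  unfold nr
  refine card_bij' (fun p _ => p.1) (fun a _ => (a, x - a)) ?_ ?_ ?_ ?_
  · rintro ⟨a, b⟩ hp
    rw [mem_filter, mem_product] at hp
    rw [mem_filter]
    refine ⟨hp.1.1, ?_⟩
    rw [← hp.2]
    simpa using hp.1.2
  · intro a ha
    rw [mem_filter] at ha
    rw [mem_filter, mem_product]
    exact ⟨⟨ha.1, ha.2⟩, by simp⟩
  · rintro ⟨a, b⟩ hp
    rw [mem_filter, mem_product] at hp
    simp only [Prod.mk.injEq, true_and]
    rw [← hp.2]
    simp
  · intro a _
    rfl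

theorem nr_le_chain' (K : ℕ → AddSubgroup G) {D : ℕ} (h : ℕ → ℝ) (hh1 : ∀ c, 1 ≤ h c)
    (hidx : ∀ c, c < D → Idx (K c) (K (c + 1)) (h c)) (h0 : K 0 = ⊤)
    (A B : Finset G) (hD : ∀ a ∈ A, ∀ a' ∈ A, a - a' ∈ K D → a = a') (F : Set ℕ)
    (hF : ∀ c, c < D → c ∉ F → (∀ a ∈ A, ∀ a' ∈ A, a - a' ∈ K c → a - a' ∈ K (c + 1)) ∨
      (∀ b ∈ B, ∀ b' ∈ B, b - b' ∈ K c → b - b' ∈ K (c + 1))) (x : G) [DecidablePred (· ∈ F)] :
    (nr A B x : ℝ) ≤ ∏ c ∈ range D, if c ∈ F then h c else 1 := by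
  rw [nr_eq_card, range_eq_Ico]
  refine rep_le' K h hh1 hidx A B hD F hF x D 0 (zero_add D) _ (fun a ha => mem_filter.1 ha) ?_
  intro a _ a' _
  rw [h0]
  exact AddSubgroup.mem_top _

variable {H : Type*} [AddCommGroup H] [DecidableEq H]

/-- the number of representations under a homomorphism -/
theorem nr_lift (φ : G →+ H) (A B : Finset H) (A' B' : Finset G) (hA : A ⊆ A'.image φ)
    (hB : B ⊆ B'.image φ) {M : ℕ} (x : H)
    (hM : ((A' + B').filter fun g => φ g = x).card ≤ M) {P : ℝ}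
    (hP : ∀ g, (nr A' B' g : ℝ) ≤ P) : (nr A B x : ℝ) ≤ M * P := by
  classical
  have hP0 : 0 ≤ P := le_trans (Nat.cast_nonneg _) (hP 0)
  have la : ∀ a ∈ A, ∃ g ∈ A', φ g = a := fun a ha => mem_image.1 (hA ha)
  have lb : ∀ b ∈ B, ∃ g ∈ B', φ g = b := fun b hb => mem_image.1 (hB hb)
  choose! f hf using la
  choose! e he using lb
  have h1 : nr A B x ≤
      (((A' + B').filter fun g => φ g = x).biUnion fun g =>
        (A' ×ˢ B').filter fun p => p.1 + p.2 = g).card := by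
    unfold nr
    refine card_le_card_of_injOn (fun p => (f p.1, e p.2)) ?_ ?_
    · rintro ⟨a, b⟩ hp
      rw [mem_coe, mem_filter, mem_product] at hp
      rw [mem_coe, mem_biUnion]
      refine ⟨f a + e b, mem_filter.2 ⟨add_mem_add (hf a hp.1.1).1 (he b hp.1.2).1, ?_⟩,
        mem_filter.2 ⟨mem_product.2 ⟨(hf a hp.1.1).1, (he b hp.1.2).1⟩, rfl⟩⟩
      rw [map_add, (hf a hp.1.1).2, (he b hp.1.2).2]
      exact hp.2
    · rintro ⟨a, b⟩ hp ⟨a', b'⟩ hp' hE
      rw [mem_coe, mem_filter, mem_product] at hp hp'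
      rw [Prod.mk.injEq] at hE
      have e1 : a = a' := by
        rw [← (hf a hp.1.1).2, ← (hf a' hp'.1.1).2, hE.1]
      have e2 : b = b' := by
        rw [← (he b hp.1.2).2, ← (he b' hp'.1.2).2, hE.2]
      rw [e1, e2]
  calc (nr A B x : ℝ) ≤ ((((A' + B').filter fun g => φ g = x).biUnion fun g =>
        (A' ×ˢ B').filter fun p => p.1 + p.2 = g).card : ℝ) := by exact_mod_cast h1
    _ ≤ ∑ g ∈ (A' + B').filter fun g => φ g = x,
        (((A' ×ˢ B').filter fun p => p.1 + p.2 = g).card : ℝ) := by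
        exact_mod_cast card_biUnion_le
    _ ≤ ∑ _g ∈ (A' + B').filter fun g => φ g = x, P := sum_le_sum fun g _ => hP g
    _ = (((A' + B').filter fun g => φ g = x).card : ℝ) * P := by
        rw [sum_const, nsmul_eq_mul]
    _ ≤ M * P := mul_le_mul_of_nonneg_right (by exact_mod_cast hM) hP0

variable [Fintype H]

/-- the bound for families with lifts adapted to a chain -/
theorem lift_bound {n : ℕ} (A B : Fin n → Finset H)
    (h1 : ∀ i, (A i + B i).card = (A i).card * (B i).card)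
    (h2 : ∀ i j k, i < k → Disjoint (A i + B j) (A j + B k))
    (φ : G →+ H) (A' B' : Fin n → Finset G) (hA' : ∀ i, A i ⊆ (A' i).image φ)
    (hB' : ∀ i, B i ⊆ (B' i).image φ) {M : ℕ} (hM0 : 0 < M)
    (hM : ∀ i j x, ((A' i + B' j).filter fun g => φ g = x).card ≤ M)
    (K : ℕ → AddSubgroup G) {D : ℕ} (h : ℕ → ℝ) (hh1 : ∀ c, 1 ≤ h c)
    (hidx : ∀ c, c < D → Idx (K c) (K (c + 1)) (h c)) (h0 : K 0 = ⊤)
    (hD : ∀ i, ∀ a ∈ A' i, ∀ a' ∈ A' i, a - a' ∈ K D → a = a')
    (hAB : ∀ i, ∀ c, c < D → (∀ a ∈ A' i, ∀ a' ∈ A' i, a - a' ∈ K c → a - a' ∈ K (c + 1)) ∨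
      (∀ b ∈ B' i, ∀ b' ∈ B' i, b - b' ∈ K c → b - b' ∈ K (c + 1))) :
    (∑ i, ((A i).card : ℝ) * (B i).card) ^ 2 ≤
      ((M : ℝ) ^ 2 * ∏ c ∈ range D, 2 * h c / (h c + 1)) * (n * (Fintype.card H : ℝ) ^ 2) := by
  classical
  have hMp : (0 : ℝ) < M := by exact_mod_cast hM0
  have hpos : ∀ c, (0 : ℝ) < h c := fun c => lt_of_lt_of_le zero_lt_one (hh1 c)
  let L : Fin n → Set ℕ := fun i =>
    {c | ∀ a ∈ A' i, ∀ a' ∈ A' i, a - a' ∈ K c → a - a' ∈ K (c + 1)}
  let q : ℕ → ℝ := fun c => 1 / h c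
  have hq0 : ∀ c, 0 < q c := fun c => one_div_pos.2 (hpos c)
  have hq1 : ∀ c, q c ≤ 1 := fun c => (div_le_one (hpos c)).2 (hh1 c)
  let w1 : Fin n → Fin n → ℝ := fun i j =>
    ∏ c ∈ range D, if (c ∈ L i ↔ c ∈ L j) then 1 else q c
  have w10 : ∀ i j, 0 ≤ w1 i j := fun i j => prod_nonneg fun c _ => by
    split_ifs
    · exact zero_le_one
    · exact (hq0 c).le
  let w : Fin n → Fin n → ℝ := fun i j => w1 i j / (M : ℝ) ^ 2
  have hw : ∀ i j x, (nr (A i) (B j) x : ℝ) * nr (A j) (B i) x * w i j ≤ 1 := by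
    intro i j x
    have hF : ∀ i j, ∀ c, c < D → c ∉ {c | c ∈ L j ∧ c ∉ L i} →
        (∀ a ∈ A' i, ∀ a' ∈ A' i, a - a' ∈ K c → a - a' ∈ K (c + 1)) ∨
        (∀ b ∈ B' j, ∀ b' ∈ B' j, b - b' ∈ K c → b - b' ∈ K (c + 1)) := by
      intro i j c hcD hc
      by_cases h3 : c ∈ L i
      · exact Or.inl h3
      · refine Or.inr ?_
        rcases hAB j c hcD with h4 | h4
        · exact absurd ⟨h4, h3⟩ hc
        · exact h4
    have P1 : ∀ i j g, (nr (A' i) (B' j) g : ℝ) ≤
        ∏ c ∈ range D, if c ∈ {c | c ∈ L j ∧ c ∉ L i} then h c else 1 := fun i j g =>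
      nr_le_chain' K h hh1 hidx h0 (A' i) (B' j) (hD i) {c | c ∈ L j ∧ c ∉ L i} (hF i j) g
    have e1 := nr_lift φ (A i) (B j) (A' i) (B' j) (hA' i) (hB' j) x (hM i j x) (P1 i j)
    have e2 := nr_lift φ (A j) (B i) (A' j) (B' i) (hA' j) (hB' i) x (hM j i x) (P1 j i)
    have hp0 : ∀ i j, 0 ≤ ∏ c ∈ range D, (if c ∈ {c | c ∈ L j ∧ c ∉ L i} then h c else 1 : ℝ) :=
      fun i j => prod_nonneg fun c _ => by
        split_ifs
        · exact (hpos c).le
        · exact zero_le_one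
    calc (nr (A i) (B j) x : ℝ) * nr (A j) (B i) x * w i j
        ≤ (M * ∏ c ∈ range D, if c ∈ {c | c ∈ L j ∧ c ∉ L i} then h c else 1) *
          (M * ∏ c ∈ range D, if c ∈ {c | c ∈ L i ∧ c ∉ L j} then h c else 1) * w i j := by
          refine mul_le_mul_of_nonneg_right ?_ (div_nonneg (w10 i j) (by positivity))
          exact mul_le_mul e1 e2 (Nat.cast_nonneg _) (mul_nonneg hMp.le (hp0 i j))
      _ = (∏ c ∈ range D, if c ∈ {c | c ∈ L j ∧ c ∉ L i} then h c else 1) *
          (∏ c ∈ range D, if c ∈ {c | c ∈ L i ∧ c ∉ L j} then h c else 1) * w1 i j := by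
          simp only [w]
          field_simp
      _ = ∏ c ∈ range D, (1 : ℝ) := by
          rw [← prod_mul_distrib, ← prod_mul_distrib]
          refine prod_congr rfl fun c _ => ?_
          have hne := (hpos c).ne'
          by_cases h3 : c ∈ L i <;> by_cases h4 : c ∈ L j <;>
            simp [h3, h4, q, hne, Set.mem_ofPred_eq]
      _ ≤ 1 := by simp
  refine main_bound A B h1 h2 w (fun i j => div_nonneg (w10 i j) (by positivity)) hw
    (mul_nonneg (by positivity) (prod_nonneg fun c _ => ?_)) ?_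
  · have := hpos c
    positivity
  intro J
  let χ : Fin n → ℕ → ℝ := fun i c => if c ∈ L i then 1 else -1
  have h3 := prod_kernel (range D) J (fun c => (1 + q c) / 2) (fun c => (1 - q c) / 2)
    (fun c => by have := hq0 c; positivity) (fun c => by have := hq1 c; linarith) χ
  have h4 : ∀ i j, ∏ c ∈ range D, ((1 + q c) / 2 + (1 - q c) / 2 * (χ i c * χ j c)) = w1 i j := by
    intro i j
    refine prod_congr rfl fun c _ => ?_
    by_cases h5 : c ∈ L i <;> by_cases h6 : c ∈ L j <;> simp [h5, h6, χ] <;> ring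
  simp_rw [h4] at h3
  have h5 : (∏ c ∈ range D, 2 * h c / (h c + 1)) * ∏ c ∈ range D, ((1 + q c) / 2) = 1 := by
    rw [← prod_mul_distrib]
    refine prod_eq_one fun c _ => ?_
    have hne := hpos c
    simp only [q]
    field_simp
  have h6 : (0 : ℝ) ≤ ∏ c ∈ range D, 2 * h c / (h c + 1) :=
    prod_nonneg fun c _ => by
      have := hpos c
      positivity
  have h7 : ∑ i ∈ J, ∑ j ∈ J, w i j = (∑ i ∈ J, ∑ j ∈ J, w1 i j) / (M : ℝ) ^ 2 := by
    simp only [w, sum_div]
  rw [h7]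
  calc (J.card : ℝ) ^ 2 = (∏ c ∈ range D, 2 * h c / (h c + 1)) *
        ((J.card : ℝ) ^ 2 * ∏ c ∈ range D, ((1 + q c) / 2)) := by
        rw [mul_left_comm, h5, mul_one]
    _ ≤ (∏ c ∈ range D, 2 * h c / (h c + 1)) * ∑ i ∈ J, ∑ j ∈ J, w1 i j :=
        mul_le_mul_of_nonneg_left h3 h6
    _ = _ := by
        field_simp

end lift

/-- the classes of integers modulo `m h` in a class modulo `m` -/
theorem idx_int (m h : ℕ) (hh : 0 < h) :
    Idx (AddSubgroup.zmultiples (m : ℤ)) (AddSubgroup.zmultiples ((m * h : ℕ) : ℤ)) (h : ℝ) := by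
  classical
  intro T h1 h2
  by_cases hne : T = ∅
  · rw [hne]
    simp
  obtain ⟨t0, ht0⟩ := nonempty_iff_ne_empty.2 hne
  haveI : NeZero h := ⟨hh.ne'⟩
  have h3 : ∀ t ∈ T, ∃ k : ℤ, t - t0 = m * k := by
    intro t ht
    obtain ⟨k, hk⟩ := AddSubgroup.mem_zmultiples_iff.1 (h1 t ht t0 ht0)
    refine ⟨k, ?_⟩
    rw [← hk, smul_eq_mul, mul_comm]
  choose! k hk using h3
  have h4 : T.card ≤ (univ : Finset (ZMod h)).card := by
    refine card_le_card_of_injOn (fun t => ((k t : ℤ) : ZMod h))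
      (fun _ _ => mem_coe.2 (mem_univ _)) ?_
    intro t ht t' ht' he
    rw [mem_coe] at ht ht'
    refine h2 t ht t' ht' ?_
    have h5 : (h : ℤ) ∣ k t - k t' := by
      have h6 := (ZMod.intCast_eq_intCast_iff_dvd_sub (k t') (k t) h).1 he.symm
      exact h6
    obtain ⟨z, hz⟩ := h5
    rw [AddSubgroup.mem_zmultiples_iff]
    refine ⟨z, ?_⟩
    have h7 : t - t' = m * (k t - k t') := by
      rw [mul_sub, ← hk t ht, ← hk t' ht']
      ring
    rw [h7, hz, smul_eq_mul]
    push_cast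
    ring
  rw [card_univ, ZMod.card] at h4
  exact_mod_cast h4

/-- the bound for families of integer digit type in cyclic groups -/
theorem cyclic_bound {n : ℕ} (N h D : ℕ) [NeZero N] (hh : 2 ≤ h) (hND : N ≤ h ^ D)
    (A B : Fin n → Finset ℕ) (hA : ∀ i, ∀ a ∈ A i, a < N) (hB : ∀ i, ∀ b ∈ B i, b < N)
    (h1 : ∀ i, ((A i).image (fun a : ℕ => (a : ZMod N)) +
      (B i).image (fun b : ℕ => (b : ZMod N))).card = (A i).card * (B i).card)
    (h2 : ∀ i j k, i < k → Disjoint
      ((A i).image (fun a : ℕ => (a : ZMod N)) + (B j).image (fun b : ℕ => (b : ZMod N)))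
      ((A j).image (fun a : ℕ => (a : ZMod N)) + (B k).image (fun b : ℕ => (b : ZMod N))))
    (hAB : ∀ i, ∀ c, c < D →
      (∀ a ∈ A i, ∀ a' ∈ A i, ((h : ℤ) ^ c ∣ (a : ℤ) - a') → ((h : ℤ) ^ (c + 1) ∣ (a : ℤ) - a')) ∨
      (∀ b ∈ B i, ∀ b' ∈ B i, ((h : ℤ) ^ c ∣ (b : ℤ) - b') →
        ((h : ℤ) ^ (c + 1) ∣ (b : ℤ) - b'))) :
    (∑ i, ((A i).card : ℝ) * (B i).card) ^ 2 ≤
      4 * (2 * (h : ℝ) / (h + 1)) ^ D * (n * (N : ℝ) ^ 2) := by
  classical
  have hinj : ∀ S : Finset ℕ, (∀ a ∈ S, a < N) →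
      (S.image (fun a : ℕ => (a : ZMod N))).card = S.card := by
    intro S hS
    refine card_image_of_injOn ?_
    intro a ha b hb he
    have h3 := (ZMod.natCast_eq_natCast_iff' a b N).1 he
    rwa [Nat.mod_eq_of_lt (hS a ha), Nat.mod_eq_of_lt (hS b hb)] at h3
  let φ : ℤ →+ ZMod N := Int.castAddHom (ZMod N)
  have himg : ∀ S : Finset ℕ, S.image (fun a : ℕ => (a : ZMod N)) =
      (S.image (fun a : ℕ => (a : ℤ))).image φ := by
    intro S
    rw [image_image]
    refine image_congr fun a _ => ?_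
    simp [φ]
  have key := lift_bound (G := ℤ) (H := ZMod N)
    (fun i => (A i).image (fun a : ℕ => (a : ZMod N)))
    (fun i => (B i).image (fun b : ℕ => (b : ZMod N))) ?_ h2 φ
    (fun i => (A i).image (fun a : ℕ => (a : ℤ)))
    (fun i => (B i).image (fun b : ℕ => (b : ℤ))) (fun i => (himg (A i)).le)
    (fun i => (himg (B i)).le) (M := 2) (by norm_num) ?_
    (fun c => AddSubgroup.zmultiples (((h ^ c : ℕ)) : ℤ)) (D := D) (fun _ => (h : ℝ))
    (fun _ => by exact_mod_cast (by omega : 1 ≤ h)) ?_ ?_ ?_ ?_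
  · have e1 : ∀ i, (((A i).image (fun a : ℕ => (a : ZMod N))).card : ℝ) = (A i).card := fun i => by
      rw [hinj (A i) (hA i)]
    have e2 : ∀ i, (((B i).image (fun a : ℕ => (a : ZMod N))).card : ℝ) = (B i).card := fun i => by
      rw [hinj (B i) (hB i)]
    simp only [e1, e2, ZMod.card, prod_const, card_range] at key
    refine key.trans (le_of_eq ?_)
    push_cast
    ring
  · intro i
    rw [h1 i, hinj (A i) (hA i), hinj (B i) (hB i)]
  · intro i j x
    have hsub : (((A i).image (fun a : ℕ => (a : ℤ)) + (B j).image (fun b : ℕ => (b : ℤ))).filter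
        fun g => φ g = x) ⊆ {(x.val : ℤ), (x.val : ℤ) + N} := by
      intro g hg
      rw [mem_filter, mem_add] at hg
      obtain ⟨⟨a, ha, b, hb, hab⟩, hgx⟩ := hg
      obtain ⟨a0, ha0, rfl⟩ := mem_image.1 ha
      obtain ⟨b0, hb0, rfl⟩ := mem_image.1 hb
      have ha1 := hA i a0 ha0
      have hb1 := hB j b0 hb0
      have hx := ZMod.val_lt x
      have h5 : ((g : ℤ) : ZMod N) = ((x.val : ℤ) : ZMod N) := by
        have : ((x.val : ℤ) : ZMod N) = x := by
          rw [Int.cast_natCast, ZMod.natCast_zmod_val]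
        rw [this]
        exact hgx
      have h6 := (ZMod.intCast_eq_intCast_iff_dvd_sub (x.val : ℤ) g N).1 h5.symm
      obtain ⟨z, hz⟩ := h6
      rw [mem_insert, mem_singleton]
      have hN : (0 : ℤ) < N := by exact_mod_cast Nat.pos_of_ne_zero (NeZero.ne N)
      have h7 : (g : ℤ) = a0 + b0 := hab.symm
      have h8 : (a0 : ℤ) < N := by exact_mod_cast ha1
      have h9 : (b0 : ℤ) < N := by exact_mod_cast hb1
      have h10 : (x.val : ℤ) < N := by exact_mod_cast hx
      have h11 : (0 : ℤ) ≤ x.val := Int.natCast_nonneg _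
      have hz1 : z < 2 := by
        by_contra hc
        push Not at hc
        nlinarith
      have hz0 : -1 < z := by
        by_contra hc
        push Not at hc
        nlinarith
      have : z = 0 ∨ z = 1 := by omega
      rcases this with h12 | h12
      · left
        rw [h12, mul_zero] at hz
        linarith
      · right
        rw [h12, mul_one] at hz
        linarith
    exact (card_le_card hsub).trans card_le_two
  · intro c _
    have := idx_int (h ^ c) h (by omega)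
    rw [pow_succ]
    exact this
  · show AddSubgroup.zmultiples (((h ^ 0 : ℕ)) : ℤ) = ⊤
    rw [pow_zero, Nat.cast_one]
    exact Int.zmultiples_one
  · intro i a ha a' ha' hd
    obtain ⟨a0, ha0, rfl⟩ := mem_image.1 ha
    obtain ⟨a1, ha1, rfl⟩ := mem_image.1 ha'
    rw [Int.mem_zmultiples_iff] at hd
    have h3 := hA i a0 ha0
    have h4 := hA i a1 ha1
    have h5 : |(a0 : ℤ) - a1| < ((h ^ D : ℕ) : ℤ) := by
      have h6 : ((N : ℕ) : ℤ) ≤ ((h ^ D : ℕ) : ℤ) := by exact_mod_cast hND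
      have h7 : (a0 : ℤ) < N := by exact_mod_cast h3
      have h8 : (a1 : ℤ) < N := by exact_mod_cast h4
      rw [abs_lt]
      constructor <;> linarith [Int.natCast_nonneg a0, Int.natCast_nonneg a1]
    have h6 := Int.eq_zero_of_abs_lt_dvd hd h5
    linarith
  · intro i c hc
    rcases hAB i c hc with h3 | h3
    · left
      intro a ha a' ha' hd
      obtain ⟨a0, ha0, rfl⟩ := mem_image.1 ha
      obtain ⟨a1, ha1, rfl⟩ := mem_image.1 ha'
      rw [Int.mem_zmultiples_iff] at hd ⊢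
      push_cast at hd ⊢
      exact h3 a0 ha0 a1 ha1 hd
    · right
      intro a ha a' ha' hd
      obtain ⟨a0, ha0, rfl⟩ := mem_image.1 ha
      obtain ⟨a1, ha1, rfl⟩ := mem_image.1 ha'
      rw [Int.mem_zmultiples_iff] at hd ⊢
      push_cast at hd ⊢
      exact h3 a0 ha0 a1 ha1 hd

end Pool.Agent.SD5
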